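import Mathlib

/-!
# MP_c351d3_co, Q1: the attachability question is equivalent to Vizing's conjecture

Part 1: for a vertex `u` with `γ(G - u) ≥ γ(G)`, the set `{u}` is attachable in `G` if and only if
every graph `Copies G u m`, made of `m` disjoint copies of `G` by joining all pairs of copies of
`u`, satisfies Vizing's conjecture.

Part 2: the answer to Q1 is yes (for all `G` and `u`) if and only if Vizing's conjecture is true.
-/

set_option autoImplicit false

namespace Pool.Agent.Results.MP_c351d3_co.VizingEquivalence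

/-- `D` dominates the set `X` in `G`. -/
def Dominates {V : Type} (G : SimpleGraph V) (D : Finset V) (X : Set V) : Prop :=
  ∀ v ∈ X, v ∈ D ∨ ∃ w ∈ D, G.Adj v w

/-- The domination number `γ(G)`. -/
noncomputable def domNum {V : Type} (G : SimpleGraph V) : ℕ :=
  sInf {k | ∃ D : Finset V, Dominates G D Set.univ ∧ D.card = k}

/-- `G` satisfies Vizing's conjecture: `γ(G □ H) ≥ γ(G) γ(H)` for every finite graph `H`. -/
def SatisfiesVizing {V : Type} (G : SimpleGraph V) : Prop :=
  ∀ (W : Type) (_ : Fintype W) (H : SimpleGraph W), domNum G * domNum H ≤ domNum (G □ H)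

/-- The graph `G - u`. -/
def del {V : Type} (G : SimpleGraph V) (u : V) : SimpleGraph {v : V // v ≠ u} :=
  G.comap Subtype.val

/-- `S` is attachable in `G`. -/
def Attachable {V : Type} (G : SimpleGraph V) (S : Set V) : Prop :=
  S.Nonempty ∧ ∀ (W : Type) (_ : Fintype W) (H : SimpleGraph W) (D : Finset (V × W)),
    Dominates (G □ H) D {x | x.1 ∉ S} → domNum G * domNum H ≤ D.card

/-- `m` disjoint copies of `G`, with the copies of `u` made pairwise adjacent. -/
def Copies {V : Type} (G : SimpleGraph V) (u : V) (m : ℕ) : SimpleGraph (Fin m × V) where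
  Adj a b := (a.1 = b.1 ∧ G.Adj a.2 b.2) ∨ (a.1 ≠ b.1 ∧ a.2 = u ∧ b.2 = u)
  symm := ⟨fun _ _ h => h.imp (fun h => ⟨h.1.symm, h.2.symm⟩)
    (fun h => ⟨h.1.symm, h.2.2, h.2.1⟩)⟩
  loopless := ⟨fun a h => by
    rcases h with h | h
    · exact G.loopless.irrefl _ h.2
    · exact h.1 rfl⟩

section basic

variable {V : Type}

theorem domNum_le {G : SimpleGraph V} {D : Finset V} (h : Dominates G D Set.univ) :
    domNum G ≤ D.card := Nat.sInf_le ⟨D, h, rfl⟩

theorem exists_domNum [Fintype V] (G : SimpleGraph V) :
    ∃ D : Finset V, Dominates G D Set.univ ∧ D.card = domNum G :=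
  Nat.sInf_mem (s := {k | ∃ D : Finset V, Dominates G D Set.univ ∧ D.card = k})
    ⟨_, Finset.univ, fun v _ => Or.inl (Finset.mem_univ v), rfl⟩

/-- If `γ(G - u) ≥ γ(G)` then every set dominating `V(G) - u` has at least `γ(G)` elements. -/
theorem card_ge [Fintype V] {G : SimpleGraph V} {u : V} (hu : domNum G ≤ domNum (del G u))
    {D : Finset V} (h : Dominates G D {v | v ≠ u}) : domNum G ≤ D.card := by
  classical
  by_cases hD : u ∈ D
  · apply domNum_le
    intro v _
    by_cases hv : v = u
    · left; rw [hv]; exact hD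
    · exact h v hv
  · refine le_trans hu ?_
    have h2 : Dominates (del G u) (D.subtype (fun v => v ≠ u)) Set.univ := by
      intro v _
      rcases h v.1 v.2 with h3 | ⟨w, hw, hadj⟩
      · left; rw [Finset.mem_subtype]; exact h3
      · right
        exact ⟨⟨w, fun e => hD (e ▸ hw)⟩, by rw [Finset.mem_subtype]; exact hw, hadj⟩
    refine le_trans (domNum_le h2) ?_
    rw [Finset.card_subtype]
    exact Finset.card_filter_le _ _

end basic

section sums

/-- Lower bound for a set fibred over `Fin m`. -/
theorem card_ge_of_fibres {A B : Type} [Fintype A] [DecidableEq A] [DecidableEq B]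
    (D : Finset (A × B)) (t : ℕ)
    (h : ∀ i : A, t ≤ ((D.filter (fun x => x.1 = i)).image Prod.snd).card) :
    Fintype.card A * t ≤ D.card := by
  rw [Finset.card_eq_sum_card_fiberwise (s := D) (f := Prod.fst) (t := Finset.univ)
    (by intro x _; exact Finset.mem_coe.2 (Finset.mem_univ _))]
  calc Fintype.card A * t = ∑ _i : A, t := by simp
    _ ≤ _ := Finset.sum_le_sum (fun i _ => le_trans (h i) Finset.card_image_le)

end sums

section copies

variable {V : Type} [Fintype V]

theorem domNum_copies {G : SimpleGraph V} {u : V} (hu : domNum G ≤ domNum (del G u)) (m : ℕ) :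
    domNum (Copies G u m) = m * domNum G := by
  classical
  apply le_antisymm
  · obtain ⟨D, hD, hc⟩ := exists_domNum G
    have h : Dominates (Copies G u m) (Finset.univ ×ˢ D) Set.univ := by
      rintro ⟨i, v⟩ _
      rcases hD v trivial with h | ⟨w, hw, hadj⟩
      · left; simpa using h
      · right
        exact ⟨(i, w), by simpa using hw, Or.inl ⟨rfl, hadj⟩⟩
    refine le_trans (domNum_le h) ?_
    rw [Finset.card_product, Finset.card_univ, Fintype.card_fin, hc]
  · obtain ⟨D, hD, hc⟩ := exists_domNum (Copies G u m)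
    rw [← hc]
    have := card_ge_of_fibres D (domNum G) (fun i => by
      apply card_ge hu
      intro v hv
      rcases hD (i, v) trivial with h | ⟨w, hw, hadj⟩
      · left
        exact Finset.mem_image.2 ⟨(i, v), Finset.mem_filter.2 ⟨h, rfl⟩, rfl⟩
      · rcases hadj with hadj | hadj
        · right
          refine ⟨w.2, Finset.mem_image.2 ⟨w, Finset.mem_filter.2 ⟨hw, hadj.1.symm⟩, rfl⟩, hadj.2⟩
        · exact absurd hadj.2.1 hv)
    simpa using this

theorem copies_of_attachable {G : SimpleGraph V} {u : V} (hu : domNum G ≤ domNum (del G u))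
    (h : Attachable G {u}) (m : ℕ) : SatisfiesVizing (Copies G u m) := by
  classical
  intro W _ H
  rw [domNum_copies hu]
  obtain ⟨D, hD, hc⟩ := exists_domNum (Copies G u m □ H)
  rw [← hc]
  let e : (Fin m × V) × W ≃ Fin m × (V × W) := Equiv.prodAssoc _ _ _
  have hcard : (D.map e.toEmbedding).card = D.card := Finset.card_map _
  rw [← hcard]
  have := card_ge_of_fibres (D.map e.toEmbedding) (domNum G * domNum H) (fun i => by
    apply h.2 W inferInstance H
    rintro ⟨v, w⟩ hv
    have hv' : v ≠ u := by simpa using hv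
    rcases hD ((i, v), w) trivial with h1 | ⟨⟨⟨j, v'⟩, w'⟩, h1, h2⟩
    · left
      rw [Finset.mem_image]
      refine ⟨(i, (v, w)), Finset.mem_filter.2 ⟨?_, rfl⟩, rfl⟩
      rw [Finset.mem_map]
      exact ⟨((i, v), w), h1, rfl⟩
    · right
      rw [SimpleGraph.boxProd_adj] at h2
      simp only [Copies] at h2
      refine ⟨(v', w'), ?_, ?_⟩
      · have hij : i = j := by
          rcases h2 with ⟨h3 | h3, _⟩ | ⟨_, h3⟩
          · exact h3.1
          · exact absurd h3.2.1 hv'
          · exact congrArg Prod.fst h3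
        rw [Finset.mem_image]
        refine ⟨(j, (v', w')), Finset.mem_filter.2 ⟨?_, hij.symm⟩, rfl⟩
        rw [Finset.mem_map]
        exact ⟨((j, v'), w'), h1, rfl⟩
      · rw [SimpleGraph.boxProd_adj]
        rcases h2 with ⟨h3 | h3, h4⟩ | ⟨h4, h3⟩
        · exact Or.inl ⟨h3.2, h4⟩
        · exact absurd h3.2.1 hv'
        · exact Or.inr ⟨h4, congrArg Prod.snd h3⟩)
  rw [Fintype.card_fin] at this
  rw [mul_assoc]
  exact this

theorem attachable_of_copies {G : SimpleGraph V} {u : V} (hu : domNum G ≤ domNum (del G u))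
    (h : ∀ m, SatisfiesVizing (Copies G u m)) : Attachable G {u} := by
  classical
  refine ⟨⟨u, rfl⟩, fun W _ H D hD => ?_⟩
  by_contra hlt
  rw [not_le] at hlt
  have hm := h (Fintype.card W + 1) W inferInstance H
  rw [domNum_copies hu] at hm
  let D' : Finset ((Fin (Fintype.card W + 1) × V) × W) :=
    (Finset.univ ×ˢ D).map (Equiv.prodAssoc _ _ _).symm.toEmbedding ∪
      Finset.univ.image (fun w : W => (((0 : Fin (Fintype.card W + 1)), u), w))
  have hD' : Dominates (Copies G u (Fintype.card W + 1) □ H) D' Set.univ := by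
    rintro ⟨⟨i, v⟩, w⟩ _
    by_cases hv : v = u
    · by_cases hi : i = 0
      · left
        rw [hv, hi]
        exact Finset.mem_union_right _ (Finset.mem_image.2 ⟨w, Finset.mem_univ _, rfl⟩)
      · right
        refine ⟨((0, u), w), Finset.mem_union_right _
          (Finset.mem_image.2 ⟨w, Finset.mem_univ _, rfl⟩), ?_⟩
        rw [SimpleGraph.boxProd_adj]
        exact Or.inl ⟨Or.inr ⟨hi, hv, rfl⟩, rfl⟩
    · rcases hD (v, w) (by simpa using hv) with h1 | ⟨⟨v', w'⟩, h1, h2⟩
      · left
        apply Finset.mem_union_left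
        rw [Finset.mem_map]
        exact ⟨(i, (v, w)), by simpa using h1, rfl⟩
      · right
        refine ⟨((i, v'), w'), ?_, ?_⟩
        · apply Finset.mem_union_left
          rw [Finset.mem_map]
          exact ⟨(i, (v', w')), by simpa using h1, rfl⟩
        · rw [SimpleGraph.boxProd_adj] at h2 ⊢
          rcases h2 with ⟨h3, h4⟩ | ⟨h3, h4⟩
          · exact Or.inl ⟨Or.inl ⟨rfl, h3⟩, h4⟩
          · exact Or.inr ⟨h3, congrArg (Prod.mk i) h4⟩
  have hc : D'.card ≤ (Fintype.card W + 1) * D.card + Fintype.card W := by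
    refine le_trans (Finset.card_union_le _ _) ?_
    apply Nat.add_le_add
    · rw [Finset.card_map, Finset.card_product, Finset.card_univ, Fintype.card_fin]
    · refine le_trans Finset.card_image_le ?_
      rw [Finset.card_univ]
  have h1 := le_trans hm (le_trans (domNum_le hD') hc)
  have h2 : (Fintype.card W + 1) * D.card ≤ (Fintype.card W + 1) * (domNum G * domNum H - 1) :=
    Nat.mul_le_mul_left _ (by omega)
  have h3 : (Fintype.card W + 1) * (domNum G * domNum H - 1) + (Fintype.card W + 1)
      = (Fintype.card W + 1) * (domNum G * domNum H) := by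
    have : domNum G * domNum H = (domNum G * domNum H - 1) + 1 := by omega
    conv_rhs => rw [this]
    ring
  rw [mul_assoc] at h1
  omega

end copies

section pendants

variable {V : Type}

/-- `l` is a leaf of `G` with neighbour `d`. -/
def IsLeafAt (G : SimpleGraph V) (l d : V) : Prop := G.Adj l d ∧ ∀ w, G.Adj l w → w = d

/-- `G` with a new pendant vertex `none` attached at `d`. -/
def pendant (G : SimpleGraph V) (d : V) : SimpleGraph (Option V) where
  Adj a b := (∃ x y, a = some x ∧ b = some y ∧ G.Adj x y) ∨ (a = none ∧ b = some d) ∨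
    (a = some d ∧ b = none)
  symm := ⟨fun a b h => by
    rcases h with ⟨x, y, h1, h2, h3⟩ | ⟨h1, h2⟩ | ⟨h1, h2⟩
    · exact Or.inl ⟨y, x, h2, h1, h3.symm⟩
    · exact Or.inr (Or.inr ⟨h2, h1⟩)
    · exact Or.inr (Or.inl ⟨h2, h1⟩)⟩
  loopless := ⟨fun a h => by
    rcases h with ⟨x, y, h1, h2, h3⟩ | ⟨h1, h2⟩ | ⟨h1, h2⟩
    · have : x = y := Option.some.inj (h1.symm.trans h2)
      exact G.loopless.irrefl _ (this ▸ h3)
    · rw [h1] at h2; simp at h2
    · rw [h1] at h2; simp at h2⟩

theorem pendant_some {G : SimpleGraph V} {d x y : V} (h : G.Adj x y) :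
    (pendant G d).Adj (some x) (some y) := Or.inl ⟨x, y, rfl, rfl, h⟩

theorem domNum_pendant [Fintype V] {G : SimpleGraph V} {D : Finset V}
    (hD : Dominates G D Set.univ) (hc : D.card = domNum G) {d : V} (hd : d ∈ D) :
    Dominates (pendant G d) (D.map Function.Embedding.some) Set.univ ∧
      domNum (pendant G d) = domNum G := by
  classical
  have h1 : Dominates (pendant G d) (D.map Function.Embedding.some) Set.univ := by
    intro v _
    cases v with
    | none =>
      right
      exact ⟨some d, Finset.mem_map.2 ⟨d, hd, rfl⟩, Or.inr (Or.inl ⟨rfl, rfl⟩)⟩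
    | some v =>
      rcases hD v trivial with h | ⟨w, hw, hadj⟩
      · left; exact Finset.mem_map.2 ⟨v, h, rfl⟩
      · right
        exact ⟨some w, Finset.mem_map.2 ⟨w, hw, rfl⟩, pendant_some hadj⟩
  refine ⟨h1, le_antisymm ?_ ?_⟩
  · refine le_trans (domNum_le h1) ?_
    rw [Finset.card_map, hc]
  · obtain ⟨D', hD', hc'⟩ := exists_domNum (pendant G d)
    rw [← hc']
    let f : Option V → V := fun o => o.getD d
    have h2 : Dominates G (D'.image f) Set.univ := by
      intro v _
      rcases hD' (some v) trivial with h | ⟨w, hw, hadj⟩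
      · left; exact Finset.mem_image.2 ⟨some v, h, rfl⟩
      · rcases hadj with ⟨x, y, h3, h4, h5⟩ | ⟨h3, h4⟩ | ⟨h3, h4⟩
        · right
          refine ⟨y, Finset.mem_image.2 ⟨w, hw, by rw [h4]; rfl⟩, ?_⟩
          rw [Option.some.inj h3]; exact h5
        · simp at h3
        · left
          refine Finset.mem_image.2 ⟨w, hw, ?_⟩
          rw [h4, Option.some.inj h3]; rfl
    exact le_trans (domNum_le h2) Finset.card_image_le

theorem domNum_del_pendant [Fintype V] (G : SimpleGraph V) (d : V) :
    domNum G ≤ domNum (del (pendant G d) none) := by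
  classical
  obtain ⟨D, hD, hc⟩ := exists_domNum (del (pendant G d) none)
  rw [← hc]
  let f : {v : Option V // v ≠ none} → V := fun o => o.1.getD d
  have h2 : Dominates G (D.image f) Set.univ := by
    intro v _
    rcases hD ⟨some v, by simp⟩ trivial with h | ⟨w, hw, hadj⟩
    · left; exact Finset.mem_image.2 ⟨_, h, rfl⟩
    · right
      rcases hadj with ⟨x, y, h3, h4, h5⟩ | ⟨h3, h4⟩ | ⟨h3, h4⟩
      · refine ⟨y, Finset.mem_image.2 ⟨w, hw, ?_⟩, ?_⟩
        · change Option.getD w.1 d = y
          have h4' : w.1 = some y := h4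
          rw [h4']; rfl
        · rw [Option.some.inj h3]; exact h5
      · simp at h3
      · exact absurd h4 w.2
  exact le_trans (domNum_le h2) Finset.card_image_le

/-- If every element of a minimum dominating set has a pendant neighbour outside the set, then the
graph satisfies Vizing's conjecture. -/
theorem vizing_of_leaves [Fintype V] {G : SimpleGraph V} {D₀ : Finset V}
    (hc : D₀.card = domNum G) (hl : ∀ d ∈ D₀, ∃ l, l ∉ D₀ ∧ IsLeafAt G l d) :
    SatisfiesVizing G := by
  classical
  intro W _ H
  obtain ⟨D, hD, hcD⟩ := exists_domNum (G □ H)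
  rw [← hcD, ← hc]
  choose! l hl1 hl2 using hl
  -- the part of `D` above `{d, l d}`
  have key : ∀ d ∈ D₀, domNum H ≤ (D.filter (fun x => x.1 = d ∨ x.1 = l d)).card := by
    intro d hd
    have : Dominates H ((D.filter (fun x => x.1 = d ∨ x.1 = l d)).image Prod.snd) Set.univ := by
      intro w _
      rcases hD (l d, w) trivial with h | ⟨⟨v, w'⟩, h1, h2⟩
      · left
        exact Finset.mem_image.2 ⟨_, Finset.mem_filter.2 ⟨h, Or.inr rfl⟩, rfl⟩
      · rw [SimpleGraph.boxProd_adj] at h2
        rcases h2 with ⟨h3, h4⟩ | ⟨h3, h4⟩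
        · left
          have h5 : v = d := (hl2 d hd).2 v h3
          have h6 : w = w' := h4
          exact Finset.mem_image.2 ⟨_, Finset.mem_filter.2 ⟨h1, Or.inl h5⟩, h6.symm⟩
        · right
          have h5 : l d = v := h4
          exact ⟨w', Finset.mem_image.2 ⟨_, Finset.mem_filter.2 ⟨h1, Or.inr h5.symm⟩, rfl⟩, h3⟩
    exact le_trans (domNum_le this) Finset.card_image_le
  have hdisj : (D₀ : Set V).PairwiseDisjoint
      (fun d => D.filter (fun x : V × W => x.1 = d ∨ x.1 = l d)) := by
    intro a ha b hb hab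
    rw [Function.onFun, Finset.disjoint_left]
    intro x hx hx'
    rw [Finset.mem_filter] at hx hx'
    have ha' : a ∈ D₀ := ha
    have hb' : b ∈ D₀ := hb
    rcases hx.2 with h1 | h1 <;> rcases hx'.2 with h2 | h2
    · exact hab (h1.symm.trans h2)
    · exact hl1 b hb' (by rw [← h2, h1]; exact ha')
    · exact hl1 a ha' (by rw [← h1, h2]; exact hb')
    · have h3 : l a = l b := h1.symm.trans h2
      have h4 := (hl2 b hb').1
      rw [← h3] at h4
      exact hab ((hl2 a ha').2 b h4).symm
  calc D₀.card * domNum H = ∑ _d ∈ D₀, domNum H := by simp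
    _ ≤ ∑ d ∈ D₀, (D.filter (fun x => x.1 = d ∨ x.1 = l d)).card := Finset.sum_le_sum key
    _ = (D₀.biUnion (fun d => D.filter (fun x => x.1 = d ∨ x.1 = l d))).card :=
        (Finset.card_biUnion hdisj).symm
    _ ≤ D.card := Finset.card_le_card (by
        intro x hx
        rw [Finset.mem_biUnion] at hx
        obtain ⟨d, _, h⟩ := hx
        exact (Finset.mem_filter.1 h).1)

/-- If the answer to Q1 is yes for the graphs with domination number `k` then every graph with
domination number `k` satisfies Vizing's conjecture. -/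
theorem vizing_of_question (k : ℕ)
    (hQ : ∀ (V : Type) (_ : Fintype V) (G : SimpleGraph V) (u : V), domNum G = k →
      SatisfiesVizing G → domNum G ≤ domNum (del G u) → Attachable G {u}) :
    ∀ (n : ℕ) (V : Type) (_ : Fintype V) (G : SimpleGraph V) (D₀ : Finset V),
      domNum G = k → Dominates G D₀ Set.univ → D₀.card = domNum G →
      (∃ A ⊆ D₀, A.card ≤ n ∧ ∀ d ∈ D₀, d ∉ A → ∃ l, l ∉ D₀ ∧ IsLeafAt G l d) →
      SatisfiesVizing G := by
  classical
  intro n
  induction n with
  | zero =>
    rintro V _ G D₀ _ _ hc ⟨A, _, hA, hl⟩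
    apply vizing_of_leaves hc
    intro d hd
    apply hl d hd
    rw [Finset.card_eq_zero.1 (Nat.le_zero.1 hA)]
    simp
  | succ n ih =>
    rintro V _ G D₀ hk hD hc ⟨A, hAD, hA, hl⟩
    by_cases hA0 : A = ∅
    · apply vizing_of_leaves hc
      intro d hd
      apply hl d hd
      rw [hA0]; simp
    obtain ⟨a, ha⟩ := Finset.nonempty_iff_ne_empty.2 hA0
    have haD : a ∈ D₀ := hAD ha
    obtain ⟨hdom, hnum⟩ := domNum_pendant hD hc haD
    have h1 : SatisfiesVizing (pendant G a) := by
      apply ih (Option V) inferInstance (pendant G a) (D₀.map Function.Embedding.some)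
        (hnum.trans hk) hdom
      · rw [Finset.card_map, hnum, hc]
      · refine ⟨(A.erase a).map Function.Embedding.some, ?_, ?_, ?_⟩
        · exact Finset.map_subset_map.2 ((Finset.erase_subset _ _).trans hAD)
        · rw [Finset.card_map, Finset.card_erase_of_mem ha]; omega
        · intro d hd hdA
          rw [Finset.mem_map] at hd
          obtain ⟨d, hd, rfl⟩ := hd
          by_cases hda : d = a
          · refine ⟨none, by simp, Or.inr (Or.inl ⟨rfl, by rw [hda]; rfl⟩), ?_⟩
            rintro w (⟨x, y, h2, _⟩ | ⟨_, h2⟩ | ⟨h2, _⟩)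
            · simp at h2
            · rw [h2, hda]; rfl
            · simp at h2
          · have hdA' : d ∉ A := by
              intro h
              apply hdA
              exact Finset.mem_map.2 ⟨d, Finset.mem_erase.2 ⟨hda, h⟩, rfl⟩
            obtain ⟨l, hl1, hl2, hl3⟩ := hl d hd hdA'
            refine ⟨some l, ?_, pendant_some hl2, ?_⟩
            · intro h
              rw [Finset.mem_map] at h
              obtain ⟨x, hx, hx2⟩ := h
              exact hl1 (by rw [← Option.some.inj hx2]; exact hx)
            · rintro w (⟨x, y, h2, h3, h4⟩ | ⟨h2, _⟩ | ⟨h2, _⟩)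
              · rw [h3, ← Option.some.inj h2] at *
                have := hl3 y h4
                rw [this]; rfl
              · simp at h2
              · exact absurd haD (by rw [← Option.some.inj h2]; exact hl1)
    have h2 := hQ (Option V) inferInstance (pendant G a) none (hnum.trans hk) h1
      (by rw [hnum]; exact domNum_del_pendant G a)
    intro W _ H
    obtain ⟨D, hDH, hcD⟩ := exists_domNum (G □ H)
    rw [← hcD, ← hnum]
    have h3 := h2.2 W inferInstance H
      (D.map ⟨fun x => (some x.1, x.2), fun x y h => by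
        simp only [Prod.mk.injEq, Option.some.injEq] at h
        exact Prod.ext h.1 h.2⟩) (by
      rintro ⟨v, w⟩ hv
      cases v with
      | none => simp at hv
      | some v =>
        rcases hDH (v, w) trivial with h | ⟨⟨v', w'⟩, h4, h5⟩
        · left; exact Finset.mem_map.2 ⟨(v, w), h, rfl⟩
        · right
          refine ⟨(some v', w'), Finset.mem_map.2 ⟨(v', w'), h4, rfl⟩, ?_⟩
          rw [SimpleGraph.boxProd_adj] at h5 ⊢
          rcases h5 with ⟨h6, h7⟩ | ⟨h6, h7⟩
          · exact Or.inl ⟨pendant_some h6, h7⟩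
          · exact Or.inr ⟨h6, congrArg some h7⟩)
    rw [Finset.card_map] at h3
    exact h3

end pendants

/-- The attachability question is equivalent to Vizing's conjecture. (1) For a vertex `u` with
`γ(G - u) ≥ γ(G)`, `{u}` is attachable in `G` iff all graphs `Copies G u m` satisfy Vizing's
conjecture. (2) If the answer to Q1 is yes for the graphs `G` with `γ(G) = k`, then Vizing's
conjecture is true for the graphs `G` with `γ(G) = k`. (3) The answer to Q1 is yes iff Vizing's
conjecture is true. -/
theorem result :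
    (∀ (V : Type) (_ : Fintype V) (G : SimpleGraph V) (u : V), domNum G ≤ domNum (del G u) →
      (Attachable G {u} ↔ ∀ m : ℕ, SatisfiesVizing (Copies G u m))) ∧
    (∀ k : ℕ, (∀ (V : Type) (_ : Fintype V) (G : SimpleGraph V) (u : V), domNum G = k →
        SatisfiesVizing G → domNum G ≤ domNum (del G u) → Attachable G {u}) →
      ∀ (V : Type) (_ : Fintype V) (G : SimpleGraph V), domNum G = k → SatisfiesVizing G) ∧
    ((∀ (V : Type) (_ : Fintype V) (G : SimpleGraph V) (u : V), SatisfiesVizing G →
        domNum G ≤ domNum (del G u) → Attachable G {u}) ↔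
      ∀ (V : Type) (_ : Fintype V) (G : SimpleGraph V), SatisfiesVizing G) := by
  have h2 : ∀ k : ℕ, (∀ (V : Type) (_ : Fintype V) (G : SimpleGraph V) (u : V), domNum G = k →
        SatisfiesVizing G → domNum G ≤ domNum (del G u) → Attachable G {u}) →
      ∀ (V : Type) (_ : Fintype V) (G : SimpleGraph V), domNum G = k → SatisfiesVizing G := by
    intro k hQ V _ G hk
    obtain ⟨D, hD, hc⟩ := exists_domNum G
    exact vizing_of_question k hQ D.card V inferInstance G D hk hD hc
      ⟨D, le_refl _, le_refl _, fun d hd hd' => absurd hd hd'⟩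
  refine ⟨fun V _ G u hu => ⟨fun h m => copies_of_attachable hu h m,
    fun h => attachable_of_copies hu h⟩, h2, fun hQ V _ G => ?_, fun hV V _ G u _ hu => ?_⟩
  · exact h2 (domNum G) (fun V _ G u _ h h' => hQ V inferInstance G u h h') V inferInstance G rfl
  · exact attachable_of_copies hu (fun m => hV _ inferInstance _)

end Pool.Agent.Results.MP_c351d3_co.VizingEquivalence
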